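import Pool.Agent.P.MP_26ad15_nt.Multi

/-! Ax-Lindemann-Weierstrass theorem with derivatives for the Gamma function. -/

namespace Pool.Agent.Results.MP_26ad15_nt.AxLindemannWeierstrass

/-- Let `f_1, ..., f_n` be non-constant algebraic functions of `x_1, ..., x_d` on a domain `U`,
no two related by `f_i - m = a (f_j - m')` with `a` rational and `m, m'` integers. Then
`x_1, ..., x_d` and all the functions `Γ^(k)(f_i)` are algebraically independent over `ℂ`. -/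
theorem result (d n : ℕ) (U : Set (Fin d → ℂ)) (hUo : IsOpen U) (hUc : IsConnected U)
    (f : Fin n → (Fin d → ℂ) → ℂ) (hf : ∀ i, AnalyticOnNhd ℂ (f i) U)
    (halg : ∀ i, ∃ Q : Polynomial (MvPolynomial (Fin d) ℂ), Q ≠ 0 ∧
      ∀ x ∈ U, Polynomial.eval₂ (MvPolynomial.eval x) (f i x) Q = 0)
    (hnc : ∀ i (c : ℂ), ¬ ∀ x ∈ U, f i x = c)
    (hH : ∀ i j, i ≠ j → ∀ (a : ℚ) (m m' : ℤ),
      ¬ ∀ x ∈ U, f i x - (m : ℂ) = (a : ℂ) * (f j x - (m' : ℂ)))
    (P : MvPolynomial (Fin d ⊕ Fin n × ℕ) ℂ)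
    (hP : ∀ x ∈ U, (∀ i (m : ℕ), f i x ≠ -(m : ℂ)) → MvPolynomial.eval
      (Sum.elim x fun j : Fin n × ℕ => iteratedDeriv j.2 Complex.Gamma (f j.1 x)) P = 0) :
    P = 0 :=
  Pool.Agent.P.MP_26ad15_nt.alw_multi hUo hUc hf halg hnc hH P hP

end Pool.Agent.Results.MP_26ad15_nt.AxLindemannWeierstrass
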